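import Pool.Agent.H174.GP.StA
import Pool.Agent.H174.GP.StP
import Pool.Agent.H174.GP.StC

open MeasureTheory ProbabilityTheory Finset Filter Topology

namespace Pool.Agent.H86.GP174

open Pool.Agent.H174.GP

namespace PL

theorem geo_congr (σ : ℝ) {ω ω' : ℕ → ℝ} {j : ℕ} (h : ω j = ω' j) : geo σ ω j = geo σ ω' j := by
  unfold geo; rw [h]

theorem Cg_congr (σ : ℝ) {ω ω' : ℕ → ℝ} {B : ℕ} (h : ∀ j ∈ Finset.Icc 1 B, ω j = ω' j) (k : ℕ) :
    Cg σ ω B k = Cg σ ω' B k := by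
  unfold Cg Cs
  refine Finset.sum_congr rfl (fun j hj => ?_)
  simp only
  rw [geo_congr σ (h j hj)]

theorem sX_congr (σ : ℝ) {ω ω' : ℕ → ℝ} {B : ℕ} (h : ∀ j ∈ Finset.Icc 1 B, ω j = ω' j) :
    sX σ ω B = sX σ ω' B := by
  unfold sX
  refine Finset.sum_congr rfl (fun j hj => ?_)
  rw [geo_congr σ (h j hj)]

theorem meas_geo (h6 : S_Tq) {σ : ℝ} (hσ : 0 < σ) {j : ℕ} (hj : 1 ≤ j) :
    Measurable (fun ω : ℕ → ℝ => geo σ ω j) := by
  unfold geo
  have : (0 : ℝ) < σ * j := mul_pos hσ (by exact_mod_cast hj)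
  exact (h6 _ this).2.2.2.1.comp (measurable_pi_apply j)

theorem meas_geoR (h6 : S_Tq) {σ : ℝ} (hσ : 0 < σ) {j : ℕ} (hj : 1 ≤ j) :
    Measurable (fun ω : ℕ → ℝ => (geo σ ω j : ℝ)) :=
  (measurable_of_countable (fun z : ℤ => (z : ℝ))).comp (meas_geo h6 hσ hj)

theorem meas_Cg (h6 : S_Tq) {σ : ℝ} (hσ : 0 < σ) (B k : ℕ) :
    Measurable (fun ω : ℕ → ℝ => Cg σ ω B k) := by
  unfold Cg Cs
  refine Finset.measurable_sum _ (fun i hi => ?_)
  exact (meas_geoR h6 hσ (Finset.mem_Icc.mp hi).1).const_mul _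

theorem meas_sX (h6 : S_Tq) {σ : ℝ} (hσ : 0 < σ) (B : ℕ) :
    Measurable (fun ω : ℕ → ℝ => sX σ ω B) := by
  unfold sX
  refine Finset.measurable_sum _ (fun i hi => ?_)
  exact (measurable_of_countable (fun z : ℤ => (i : ℤ) * |z|)).comp
    (meas_geo h6 hσ (Finset.mem_Icc.mp hi).1)

theorem PP_coord (j : ℕ) (s : Set ℝ) (hs : MeasurableSet s) :
    PP.real {ω | ω j ∈ s} = lap.real s := by
  have h : Measure.map (fun ω : ℕ → ℝ => ω j) PP = lap := by
    unfold PP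
    exact Measure.infinitePi_map_eval (fun _ : ℕ => lap) j
  rw [← h, measureReal_def, measureReal_def, Measure.map_apply (measurable_pi_apply j) hs]
  rfl

/-- Splitting of the index set. -/
theorem split_sum {M : Type*} [AddCommMonoid M] (f : ℕ → M) {B d js : ℕ} (h1 : B < js) (h2 : js ≤ d) :
    ∑ j ∈ Finset.Icc 1 d, f j = ∑ j ∈ Finset.Icc 1 B, f j + (∑ j ∈ (Finset.Ioc B d).erase js, f j + f js) := by
  have hjs : js ∈ Finset.Ioc B d := Finset.mem_Ioc.mpr ⟨h1, h2⟩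
  rw [Finset.sum_erase_add _ _ hjs]
  have : Finset.Icc 1 d = Finset.Icc 1 B ∪ Finset.Ioc B d := by
    ext x; simp only [Finset.mem_union, Finset.mem_Icc, Finset.mem_Ioc]; omega
  rw [this, Finset.sum_union]
  rw [Finset.disjoint_left]
  intro x hx hx'
  rw [Finset.mem_Icc] at hx
  rw [Finset.mem_Ioc] at hx'
  omega

end PL

open PL

theorem gp_pl (h1 : S_typs) (h2 : S_mid) (h3 : S_PLs) (h4 : S_indep) (h5 : S_Tqlaw) (h6 : S_Tq) : S_PL := by
  intro θ s1 s2 ε ε' hθ hTh hs1 hs2 hε hε'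
  obtain ⟨η0, hη0, hη01, d1, H1⟩ := h1 s1 s2 (ε' / 16) (θ + ε + 1) hs1 hs2 (by positivity) (by positivity)
  set η : ℝ := min η0 (1 / 2) with hη
  have hηpos : 0 < η := lt_min hη0 (by norm_num)
  have hηhalf : η ≤ 1 / 2 := min_le_right _ _
  have hηη0 : η ≤ η0 := min_le_left _ _
  obtain ⟨R, hR, d2, H2⟩ := h2 s1 s2 η hs1 hs2 hηpos (by linarith)
  obtain ⟨d3, H3⟩ := h3 θ s1 s2 (ε / 2) η (2 * R) hθ hTh hs1 hs2 (by positivity) hηpos (by linarith) (by positivity)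
  -- constants
  set c0 : ℝ := (1 - Real.exp (-(s1 / 2))) / 2 * Real.exp (-s2) with hc0
  have hc0pos : 0 < c0 := by
    have : Real.exp (-(s1 / 2)) < 1 := by rw [Real.exp_lt_one_iff]; linarith
    have := Real.exp_pos (-s2)
    rw [hc0]
    apply mul_pos <;> linarith
  set C1 : ℝ := 2 / (1 - Real.exp (-s1)) with hC1
  have hes1 : Real.exp (-s1) < 1 := by rw [Real.exp_lt_one_iff]; linarith
  have hC1pos : 0 < C1 := by rw [hC1]; apply div_pos <;> linarith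
  -- large d
  have ev1 : ∀ᶠ d : ℕ in atTop, 1 ≤ R * Real.sqrt d := by
    have : Tendsto (fun d : ℕ => R * Real.sqrt d) atTop atTop :=
      Tendsto.const_mul_atTop hR (Real.tendsto_sqrt_atTop.comp tendsto_natCast_atTop_atTop)
    exact this.eventually_ge_atTop 1
  have ev2 : ∀ᶠ d : ℕ in atTop, R + 1 + C1 ≤ 3 / 4 * Real.sqrt (ε' * Real.log d) := by
    have : Tendsto (fun d : ℕ => 3 / 4 * Real.sqrt (ε' * Real.log d)) atTop atTop :=
      Tendsto.const_mul_atTop (by norm_num) (Real.tendsto_sqrt_atTop.comp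
        (Tendsto.const_mul_atTop hε' (Real.tendsto_log_atTop.comp tendsto_natCast_atTop_atTop)))
    exact this.eventually_ge_atTop _
  have ev3 : ∀ᶠ d : ℕ in atTop, 4 / c0 + 1 ≤ (d : ℝ) ^ (ε / 2) := by
    have : Tendsto (fun d : ℕ => (d : ℝ) ^ (ε / 2)) atTop atTop :=
      (tendsto_rpow_atTop (by positivity)).comp tendsto_natCast_atTop_atTop
    exact this.eventually_ge_atTop _
  obtain ⟨d4, H4⟩ := Filter.eventually_atTop.mp (ev1.and (ev2.and ev3))
  refine ⟨max (max d1 d2) (max d3 (max d4 8)), ?_⟩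
  intro d hd σ hσ hsl hsu p hp
  have hdd1 : d1 ≤ d := le_trans (le_trans (le_max_left _ _) (le_max_left _ _)) hd
  have hdd2 : d2 ≤ d := le_trans (le_trans (le_max_right _ _) (le_max_left _ _)) hd
  have hdd3 : d3 ≤ d := le_trans (le_trans (le_max_left _ _) (le_max_right _ _)) hd
  have hdd4 : d4 ≤ d := le_trans (le_trans (le_trans (le_max_left _ _) (le_max_right _ _)) (le_max_right _ _)) hd
  have hd8 : 8 ≤ d := le_trans (le_trans (le_trans (le_max_right _ _) (le_max_right _ _)) (le_max_right _ _)) hd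
  obtain ⟨e1, e2, e3⟩ := H4 d hdd4
  have hd8' : (8 : ℝ) ≤ d := by exact_mod_cast hd8
  have hd0 : (0 : ℝ) < d := by linarith
  set B : ℕ := ⌊η * d⌋₊ with hB
  have hBle : (B : ℝ) ≤ η * d := Nat.floor_le (by positivity)
  have hBd : 2 * B ≤ d := by
    have : (2 : ℝ) * B ≤ d := by nlinarith
    exact_mod_cast this
  -- the odd index
  obtain ⟨js, hjs1, hjs2, hjodd⟩ : ∃ js : ℕ, d - 1 ≤ js ∧ js ≤ d ∧ js % 2 = 1 := by
    rcases Nat.even_or_odd d with he | ho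
    · refine ⟨d - 1, le_rfl, Nat.sub_le _ _, ?_⟩
      obtain ⟨r, hr⟩ := he
      omega
    · refine ⟨d, Nat.sub_le _ _, le_rfl, ?_⟩
      obtain ⟨r, hr⟩ := ho
      omega
  have hBjs : B < js := by omega
  have hjsone : 1 ≤ js := by omega
  set J : Finset ℕ := (Finset.Ioc B d).erase js with hJ
  have hJmem : ∀ j ∈ J, B < j ∧ j ≤ d ∧ j ≠ js := by
    intro j hj
    rw [hJ, Finset.mem_erase, Finset.mem_Ioc] at hj
    exact ⟨hj.2.1, hj.2.2, hj.1⟩
  set D : ℝ := (d : ℝ) ^ (3 / 2 : ℝ) with hD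
  have hDsq : D = d * Real.sqrt d := by
    rw [hD, Real.sqrt_eq_rpow]
    nth_rewrite 2 [← Real.rpow_one (d : ℝ)]
    rw [← Real.rpow_add hd0]; norm_num
  have hsqd : 1 ≤ Real.sqrt d := by rw [Real.one_le_sqrt]; linarith
  have hDd : (d : ℝ) ≤ D := by rw [hDsq]; nlinarith
  -- the events
  set V : ℝ := Real.sqrt (ε' / 16 * Real.log d) * D with hV
  set E0 : Set (ℕ → ℝ) := {ω | (∀ k ∈ Finset.Icc 1 B, (k : ℝ) ≤ Cg σ ω B k) ∧
      2 * R * D ≤ Cg σ ω B B} with hE0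
  set Bad : Set (ℕ → ℝ) := {ω | V ≤ |(sX σ ω B : ℝ) - m1 B σ|} with hBad
  set E1 : Set (ℕ → ℝ) := {ω | ((∀ k ∈ Finset.Icc 1 B, (k : ℝ) ≤ Cg σ ω B k) ∧
      2 * R * D ≤ Cg σ ω B B) ∧ |(sX σ ω B : ℝ) - m1 B σ| < V} with hE1
  set E2 : Set (ℕ → ℝ) := {ω | 0 ≤ ∑ j ∈ J, (geo σ ω j : ℝ) ∧
      (∀ k ∈ Finset.Icc 1 d, -(R * D) ≤ ∑ j ∈ J, ((min j k : ℕ) : ℝ) * (geo σ ω j : ℝ)) ∧
      |∑ j ∈ J, ((j : ℝ) * |(geo σ ω j : ℝ)| - (j : ℝ) * (2 * Real.exp (-(σ * j)) / (1 - Real.exp (-(2 * σ * j)))))|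
        ≤ R * D} with hE2
  have P0 : (d : ℝ) ^ (-θ - ε / 2) ≤ PP.real E0 := H3 d hdd3 σ hσ hsl hsu
  have PB : PP.real Bad ≤ (d : ℝ) ^ (-(θ + ε + 1)) := H1 d hdd1 σ hσ hsl hsu B
    (le_trans hBle (by gcongr))
  have P2 : 1 / 4 ≤ PP.real E2 := H2 d hdd2 σ hσ hsl hsu js
  -- measurability
  have mE1 : MeasurableSet E1 := by
    have : E1 = ((⋂ k ∈ Finset.Icc 1 B, {ω | (k : ℝ) ≤ Cg σ ω B k}) ∩ {ω | 2 * R * D ≤ Cg σ ω B B}) ∩
        {ω | |(sX σ ω B : ℝ) - m1 B σ| < V} := by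
      ext ω; simp [hE1]
    rw [this]
    refine ((Finset.measurableSet_biInter _ (fun k _ => measurableSet_le measurable_const (meas_Cg h6 hσ B k))).inter
      (measurableSet_le measurable_const (meas_Cg h6 hσ B B))).inter (measurableSet_lt ?_ measurable_const)
    exact (measurable_of_countable (fun z : ℤ => |(z : ℝ) - m1 B σ|)).comp (meas_sX h6 hσ B)
  have mE2 : MeasurableSet E2 := by
    have : E2 = {ω | 0 ≤ ∑ j ∈ J, (geo σ ω j : ℝ)} ∩ ((⋂ k ∈ Finset.Icc 1 d,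
        {ω | -(R * D) ≤ ∑ j ∈ J, ((min j k : ℕ) : ℝ) * (geo σ ω j : ℝ)}) ∩
        {ω | |∑ j ∈ J, ((j : ℝ) * |(geo σ ω j : ℝ)| - (j : ℝ) * (2 * Real.exp (-(σ * j)) / (1 - Real.exp (-(2 * σ * j)))))|
        ≤ R * D}) := by
      ext ω; simp [hE2]
    rw [this]
    have hj1 : ∀ j ∈ J, 1 ≤ j := fun j hj => by have := (hJmem j hj).1; omega
    refine (measurableSet_le measurable_const (Finset.measurable_sum _ (fun j hj => meas_geoR h6 hσ (hj1 j hj)))).inter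
      ((Finset.measurableSet_biInter _ (fun k _ => measurableSet_le measurable_const
        (Finset.measurable_sum _ (fun j hj => (meas_geoR h6 hσ (hj1 j hj)).const_mul _)))).inter
        (measurableSet_le (continuous_abs.measurable.comp (Finset.measurable_sum _ (fun j hj => ?_))) measurable_const))
    exact (measurable_of_countable (fun z : ℤ => (j : ℝ) * |(z : ℝ)| - (j : ℝ) * (2 * Real.exp (-(σ * j)) / (1 - Real.exp (-(2 * σ * j)))))).comp
      (meas_geo h6 hσ (hj1 j hj))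
  -- the integer rest of the sum
  let Y : (ℕ → ℝ) → ℤ := fun ω => sX σ ω B + ∑ j ∈ J, (j : ℤ) * |geo σ ω j|
  have mY : Measurable Y := by
    refine (meas_sX h6 hσ B).add (Finset.measurable_sum _ (fun j hj => ?_))
    have hj1 : 1 ≤ j := by have := (hJmem j hj).1; omega
    exact (measurable_of_countable (fun z : ℤ => (j : ℤ) * |z|)).comp (meas_geo h6 hσ hj1)
  set G0 : Set (ℕ → ℝ) := (E1 ∩ E2) ∩ {ω | Y ω % 2 = p} with hG0
  set G1 : Set (ℕ → ℝ) := (E1 ∩ E2) ∩ {ω | ¬ (Y ω % 2 = p)} with hG1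
  have mp : MeasurableSet {ω | Y ω % 2 = p} :=
    mY (MeasurableSet.of_discrete (s := {z : ℤ | z % 2 = p}))
  have mG0 : MeasurableSet G0 := (mE1.inter mE2).inter mp
  have mG1 : MeasurableSet G1 := (mE1.inter mE2).inter mp.compl
  let H : ℤ → Set (ℕ → ℝ) := fun q => {ω | geo σ ω js = q}
  have mH : ∀ q, MeasurableSet (H q) := fun q =>
    (meas_geo h6 hσ hjsone) (MeasurableSet.singleton q)
  -- dependence
  have dE1 : DepOn (Finset.Icc 1 B) E1 := by
    intro ω ω' hω hm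
    rw [hE1, Set.mem_ofPred_eq] at hm ⊢
    rw [← sX_congr σ hω]
    simp only [← Cg_congr σ hω]
    exact hm
  have dE2 : DepOn J E2 := by
    intro ω ω' hω hm
    rw [hE2, Set.mem_ofPred_eq] at hm ⊢
    have g : ∀ j ∈ J, geo σ ω j = geo σ ω' j := fun j hj => geo_congr σ (hω j hj)
    have s1 : ∑ j ∈ J, (geo σ ω j : ℝ) = ∑ j ∈ J, (geo σ ω' j : ℝ) :=
      Finset.sum_congr rfl (fun j hj => by rw [g j hj])
    have s2 : ∀ k : ℕ, ∑ j ∈ J, ((min j k : ℕ) : ℝ) * (geo σ ω j : ℝ) = ∑ j ∈ J, ((min j k : ℕ) : ℝ) * (geo σ ω' j : ℝ) :=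
      fun k => Finset.sum_congr rfl (fun j hj => by rw [g j hj])
    have s3 : ∑ j ∈ J, ((j : ℝ) * |(geo σ ω j : ℝ)| - (j : ℝ) * (2 * Real.exp (-(σ * j)) / (1 - Real.exp (-(2 * σ * j)))))
        = ∑ j ∈ J, ((j : ℝ) * |(geo σ ω' j : ℝ)| - (j : ℝ) * (2 * Real.exp (-(σ * j)) / (1 - Real.exp (-(2 * σ * j))))) :=
      Finset.sum_congr rfl (fun j hj => by rw [g j hj])
    rw [← s1, ← s3]
    simp only [← s2]
    exact hm
  have hYc : ∀ ω ω' : ℕ → ℝ, (∀ j ∈ Finset.Icc 1 B ∪ J, ω j = ω' j) → Y ω = Y ω' := by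
    intro ω ω' hω
    have a1 : sX σ ω B = sX σ ω' B := sX_congr σ (fun j hj => hω j (Finset.mem_union_left _ hj))
    have a2 : ∑ j ∈ J, (j : ℤ) * |geo σ ω j| = ∑ j ∈ J, (j : ℤ) * |geo σ ω' j| :=
      Finset.sum_congr rfl (fun j hj => by rw [geo_congr σ (hω j (Finset.mem_union_right _ hj))])
    simp only [Y]
    rw [a1, a2]
  have dG : DepOn (Finset.Icc 1 B ∪ J) (E1 ∩ E2) := by
    intro ω ω' hω hm
    exact ⟨dE1 ω ω' (fun j hj => hω j (Finset.mem_union_left _ hj)) hm.1,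
      dE2 ω ω' (fun j hj => hω j (Finset.mem_union_right _ hj)) hm.2⟩
  have dG0 : DepOn (Finset.Icc 1 B ∪ J) G0 := by
    intro ω ω' hω hm
    refine ⟨dG ω ω' hω hm.1, ?_⟩
    have := hm.2
    rw [Set.mem_ofPred_eq] at this ⊢
    rw [← hYc ω ω' hω]; exact this
  have dG1 : DepOn (Finset.Icc 1 B ∪ J) G1 := by
    intro ω ω' hω hm
    refine ⟨dG ω ω' hω hm.1, ?_⟩
    have := hm.2
    rw [Set.mem_ofPred_eq] at this ⊢
    rw [← hYc ω ω' hω]; exact this
  have dH : ∀ q, DepOn {js} (H q) := by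
    intro q ω ω' hω hm
    have : geo σ ω js = q := hm
    change geo σ ω' js = q
    rw [← geo_congr σ (hω js (Finset.mem_singleton_self js))]
    exact this
  have disj1 : Disjoint (Finset.Icc 1 B) J := by
    rw [Finset.disjoint_left]
    intro x hx hx'
    rw [Finset.mem_Icc] at hx
    have := (hJmem x hx').1
    omega
  have disj2 : Disjoint (Finset.Icc 1 B ∪ J) {js} := by
    rw [Finset.disjoint_singleton_right, Finset.mem_union, not_or]
    constructor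
    · rw [Finset.mem_Icc]; omega
    · intro h; exact (hJmem js h).2.2 rfl
  -- the law of the coordinate js
  have hjsR : (js : ℝ) ≤ d := by exact_mod_cast hjs2
  have hjsR2 : (d : ℝ) / 2 ≤ js := by
    have : d ≤ 2 * js := by omega
    have : (d : ℝ) ≤ 2 * js := by exact_mod_cast this
    linarith
  have ha1 : s1 / 2 ≤ σ * js := by nlinarith
  have ha2 : σ * js ≤ s2 := le_trans (by gcongr) hsu
  have hapos : 0 < σ * js := by linarith
  have PH : ∀ q : ℤ, (q = 0 ∨ q = 1) → c0 ≤ PP.real (H q) := by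
    intro q hq
    have h : PP.real (H q) = lap.real {x | Tq (σ * js) x = q} :=
      PP_coord js {x | Tq (σ * js) x = q} ((h6 _ hapos).2.2.2.1 (MeasurableSet.singleton q))
    rw [h, h5 (σ * js) q hapos, hc0]
    have i1 : Real.exp (-(σ * js)) ≤ Real.exp (-(s1 / 2)) := Real.exp_le_exp.mpr (by linarith)
    have i2 : Real.exp (-s2) ≤ Real.exp (-(σ * js * |(q : ℤ)|)) := by
      apply Real.exp_le_exp.mpr
      rcases hq with rfl | rfl
      · simp; exact hs2.le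
      · simpa using ha2
    have i3 : Real.exp (-(σ * js)) ≤ 1 := Real.exp_le_one_iff.mpr (by linarith)
    have i4 := Real.exp_pos (-(σ * js))
    have i5 : (1 - Real.exp (-(s1 / 2))) / 2 ≤ (1 - Real.exp (-(σ * js))) / (1 + Real.exp (-(σ * js))) := by
      rw [div_le_div_iff₀ (by norm_num) (by linarith)]
      nlinarith
    have i6 : 0 ≤ (1 - Real.exp (-(s1 / 2))) / 2 := by
      have : Real.exp (-(s1 / 2)) < 1 := by rw [Real.exp_lt_one_iff]; linarith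
      linarith
    exact mul_le_mul i5 i2 (Real.exp_pos _).le (le_trans i6 i5)
  -- the inclusion
  have key : ∀ ω ∈ E1 ∩ E2, ∀ q : ℤ, (q = 0 ∨ q = 1) → geo σ ω js = q →
      (∀ k ∈ Finset.Icc 1 d, (k : ℝ) ≤ Cg σ ω d k) ∧
      |(sX σ ω d : ℝ) - m1 d σ| ≤ Real.sqrt (ε' * Real.log d) * D ∧
      sX σ ω d = Y ω + js * q := by
    intro ω hω q hq hgq
    obtain ⟨hm1, hm2⟩ := hω
    rw [hE1, Set.mem_ofPred_eq] at hm1
    rw [hE2, Set.mem_ofPred_eq] at hm2
    obtain ⟨⟨a1, a2⟩, a3⟩ := hm1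
    obtain ⟨b1, b2, b3⟩ := hm2
    have hq0 : (0 : ℝ) ≤ (geo σ ω js : ℝ) := by
      rw [hgq]; rcases hq with rfl | rfl <;> norm_num
    have hq1 : |(geo σ ω js : ℝ)| ≤ 1 := by
      rw [hgq]; rcases hq with rfl | rfl <;> norm_num
    refine ⟨?_, ?_, ?_⟩
    · intro k hk
      rw [Finset.mem_Icc] at hk
      have hsplit : Cg σ ω d k = Cg σ ω B k + (∑ j ∈ J, ((min j k : ℕ) : ℝ) * (geo σ ω j : ℝ) +
          ((min js k : ℕ) : ℝ) * (geo σ ω js : ℝ)) := by
        unfold Cg Cs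
        exact split_sum (fun j => ((min j k : ℕ) : ℝ) * (geo σ ω j : ℝ)) hBjs hjs2
      have hlast : 0 ≤ ((min js k : ℕ) : ℝ) * (geo σ ω js : ℝ) := by positivity
      rw [hsplit]
      rcases Nat.lt_or_ge B k with hBk | hkB
      · have hc : Cg σ ω B k = Cg σ ω B B := by
          unfold Cg Cs
          refine Finset.sum_congr rfl (fun j hj => ?_)
          rw [Finset.mem_Icc] at hj
          rw [min_eq_left (by omega : j ≤ k), min_eq_left hj.2]
        have hb := b2 k (Finset.mem_Icc.mpr hk)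
        have hk' : (k : ℝ) ≤ d := by exact_mod_cast hk.2
        have : (d : ℝ) ≤ R * D := by
          rw [hDsq]
          nlinarith
        rw [hc]
        linarith
      · have hc : ∑ j ∈ J, ((min j k : ℕ) : ℝ) * (geo σ ω j : ℝ) = k * ∑ j ∈ J, (geo σ ω j : ℝ) := by
          rw [Finset.mul_sum]
          refine Finset.sum_congr rfl (fun j hj => ?_)
          have := (hJmem j hj).1
          rw [min_eq_right (by omega : k ≤ j)]
        have hk0 : (0 : ℝ) ≤ k := Nat.cast_nonneg k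
        have := a1 k (Finset.mem_Icc.mpr ⟨hk.1, hkB⟩)
        rw [hc]
        have := mul_nonneg hk0 b1
        linarith
    · have t1 : (sX σ ω d : ℝ) = (sX σ ω B : ℝ) + (∑ j ∈ J, (j : ℝ) * |(geo σ ω j : ℝ)| +
          (js : ℝ) * |(geo σ ω js : ℝ)|) := by
        unfold sX
        push_cast
        exact split_sum (fun j => (j : ℝ) * |(geo σ ω j : ℝ)|) hBjs hjs2
      have t2 : m1 d σ = m1 B σ + (∑ j ∈ J, (j : ℝ) * (2 * Real.exp (-(σ * j)) / (1 - Real.exp (-(2 * σ * j)))) +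
          (js : ℝ) * (2 * Real.exp (-(σ * js)) / (1 - Real.exp (-(2 * σ * js))))) := by
        unfold m1
        exact split_sum (fun j => (j : ℝ) * (2 * Real.exp (-(σ * j)) / (1 - Real.exp (-(2 * σ * j))))) hBjs hjs2
      have t3 : 0 ≤ 2 * Real.exp (-(σ * js)) / (1 - Real.exp (-(2 * σ * js))) ∧
          2 * Real.exp (-(σ * js)) / (1 - Real.exp (-(2 * σ * js))) ≤ C1 := by
        have i1 : Real.exp (-(2 * σ * js)) ≤ Real.exp (-s1) := Real.exp_le_exp.mpr (by linarith)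
        have i3 : Real.exp (-(σ * js)) ≤ 1 := Real.exp_le_one_iff.mpr (by linarith)
        have i4 := Real.exp_pos (-(σ * js))
        constructor
        · apply div_nonneg <;> linarith
        · rw [hC1]
          apply div_le_div₀ <;> linarith
      have t4 : Real.sqrt (ε' / 16 * Real.log d) = 1 / 4 * Real.sqrt (ε' * Real.log d) := by
        have : ε' / 16 * Real.log d = (1 / 4) ^ 2 * (ε' * Real.log d) := by ring
        rw [this, Real.sqrt_mul (by positivity), Real.sqrt_sq (by norm_num)]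
      rw [Finset.sum_sub_distrib] at b3
      have hjs0 : (0 : ℝ) ≤ js := Nat.cast_nonneg js
      have u1 : (js : ℝ) * |(geo σ ω js : ℝ)| ≤ d := by nlinarith [abs_nonneg (geo σ ω js : ℝ)]
      have u2 : 0 ≤ (js : ℝ) * |(geo σ ω js : ℝ)| := by positivity
      have u3 : (js : ℝ) * (2 * Real.exp (-(σ * js)) / (1 - Real.exp (-(2 * σ * js)))) ≤ d * C1 := by
        apply mul_le_mul hjsR t3.2 t3.1 hd0.le
      have u4 : 0 ≤ (js : ℝ) * (2 * Real.exp (-(σ * js)) / (1 - Real.exp (-(2 * σ * js)))) :=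
        mul_nonneg hjs0 t3.1
      have u5 : d * C1 ≤ D * C1 := by gcongr
      have u6 : (R + 1 + C1) * D ≤ 3 / 4 * Real.sqrt (ε' * Real.log d) * D := by
        have : 0 ≤ D := by linarith
        gcongr
      rw [hV, t4] at a3
      rw [t1, t2]
      rw [abs_lt] at a3
      rw [abs_le] at b3 ⊢
      constructor <;> nlinarith
    · have : sX σ ω d = sX σ ω B + (∑ j ∈ J, (j : ℤ) * |geo σ ω j| + (js : ℤ) * |geo σ ω js|) := by
        unfold sX
        exact split_sum (fun j => (j : ℤ) * |geo σ ω j|) hBjs hjs2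
      rw [this, hgq]
      simp only [Y]
      rcases hq with rfl | rfl
      · simp
      · simp; ring
  -- assembly
  set T : Set (ℕ → ℝ) := {ω | (∀ k ∈ Finset.Icc 1 d, (k : ℝ) ≤ Cg σ ω d k) ∧
      |(sX σ ω d : ℝ) - m1 d σ| ≤ Real.sqrt (ε' * Real.log d) * D ∧
      sX σ ω d % 2 = p} with hT
  have hsub : (G0 ∩ H 0) ∪ (G1 ∩ H 1) ⊆ T := by
    intro ω hω
    have hjz : ((js : ℕ) : ℤ) % 2 = 1 := by omega
    rcases hω with hω | hω
    · obtain ⟨⟨hg, hy⟩, hh⟩ := hω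
      obtain ⟨k1, k2, k3⟩ := key ω hg 0 (Or.inl rfl) hh
      refine ⟨k1, k2, ?_⟩
      rw [k3]
      have : Y ω % 2 = p := hy
      omega
    · obtain ⟨⟨hg, hy⟩, hh⟩ := hω
      obtain ⟨k1, k2, k3⟩ := key ω hg 1 (Or.inr rfl) hh
      refine ⟨k1, k2, ?_⟩
      rw [k3]
      have : ¬ (Y ω % 2 = p) := hy
      omega
  have hdisj : Disjoint (G0 ∩ H 0) (G1 ∩ H 1) := by
    rw [Set.disjoint_left]
    intro ω ha hb
    exact hb.1.2 ha.1.2
  have f1 : PP.real (G0 ∩ H 0) = PP.real G0 * PP.real (H 0) := h4 _ _ _ _ disj2 mG0 (mH 0) dG0 (dH 0)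
  have f2 : PP.real (G1 ∩ H 1) = PP.real G1 * PP.real (H 1) := h4 _ _ _ _ disj2 mG1 (mH 1) dG1 (dH 1)
  have f3 : PP.real (E1 ∩ E2) = PP.real E1 * PP.real E2 := h4 _ _ _ _ disj1 mE1 mE2 dE1 dE2
  have f4 : PP.real (E1 ∩ E2) ≤ PP.real G0 + PP.real G1 := by
    refine le_trans (measureReal_mono ?_) (measureReal_union_le _ _)
    intro ω hω
    by_cases hy : Y ω % 2 = p
    · exact Or.inl ⟨hω, hy⟩
    · exact Or.inr ⟨hω, hy⟩
  have f5 : PP.real E0 ≤ PP.real E1 + PP.real Bad := by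
    refine le_trans (measureReal_mono ?_) (measureReal_union_le _ _)
    intro ω hω
    by_cases hy : V ≤ |(sX σ ω B : ℝ) - m1 B σ|
    · exact Or.inr hy
    · exact Or.inl ⟨hω, not_le.mp hy⟩
  have f6 : PP.real ((G0 ∩ H 0) ∪ (G1 ∩ H 1)) = PP.real (G0 ∩ H 0) + PP.real (G1 ∩ H 1) :=
    measureReal_union hdisj (mG1.inter (mH 1))
  have f7 : PP.real ((G0 ∩ H 0) ∪ (G1 ∩ H 1)) ≤ PP.real T := measureReal_mono hsub
  refine le_trans ?_ f7
  rw [f6, f1, f2]
  have g0 : 0 ≤ PP.real G0 := measureReal_nonneg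
  have g1 : 0 ≤ PP.real G1 := measureReal_nonneg
  have g2 : 0 ≤ PP.real E1 := measureReal_nonneg
  have k1 := mul_le_mul_of_nonneg_left (PH 0 (Or.inl rfl)) g0
  have k2 := mul_le_mul_of_nonneg_left (PH 1 (Or.inr rfl)) g1
  have k3 : c0 * (PP.real E1 * (1 / 4)) ≤ c0 * (PP.real G0 + PP.real G1) := by
    gcongr
    calc PP.real E1 * (1 / 4) ≤ PP.real E1 * PP.real E2 := by gcongr
      _ = PP.real (E1 ∩ E2) := f3.symm
      _ ≤ _ := f4
  have k4 : (d : ℝ) ^ (-θ - ε / 2) - (d : ℝ) ^ (-(θ + ε + 1)) ≤ PP.real E1 := by linarith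
  have k5 : (d : ℝ) ^ (-θ - ε / 2) = (d : ℝ) ^ (-θ - ε) * (d : ℝ) ^ (ε / 2) := by
    rw [← Real.rpow_add hd0]; congr 1; ring
  have k6 : (d : ℝ) ^ (-(θ + ε + 1)) ≤ (d : ℝ) ^ (-θ - ε) := by
    apply Real.rpow_le_rpow_of_exponent_le (by linarith)
    linarith
  have k7 : 0 < (d : ℝ) ^ (-θ - ε) := Real.rpow_pos_of_pos hd0 _
  have k8 : (d : ℝ) ^ (-θ - ε) * (4 / c0) ≤ PP.real E1 := by
    have := mul_le_mul_of_nonneg_left e3 k7.le
    rw [← k5] at this
    linarith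
  have k9 : (d : ℝ) ^ (-θ - ε) ≤ c0 * (PP.real E1 * (1 / 4)) := by
    have := mul_le_mul_of_nonneg_left k8 hc0pos.le
    have e : c0 * ((d : ℝ) ^ (-θ - ε) * (4 / c0)) = 4 * (d : ℝ) ^ (-θ - ε) := by
      field_simp
    rw [e] at this
    linarith
  linarith

end Pool.Agent.H86.GP174
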