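import Pool.Agent.H174.GP.StP

open MeasureTheory ProbabilityTheory Finset

namespace Pool.Agent.H86.GP174

open Pool.Agent.H174.GP

theorem meas_S (j : ℕ) : Measurable (fun ω : ℕ → ℝ => S ω j) := by
  unfold S
  exact Finset.measurable_sum _ (fun i _ => measurable_pi_apply i)

theorem meas_Ch (L x : ℕ) : Measurable (fun ω : ℕ → ℝ => Ch ω L x) := by
  unfold Ch Cs
  refine Finset.measurable_sum _ (fun i _ => ?_)
  exact ((measurable_pi_apply i).div_const _).const_mul _

theorem S_zero (ω : ℕ → ℝ) : S ω 0 = 0 := by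
  unfold S; simp

theorem tau_zero (g : ℕ → ℕ) : tau g 0 = 0 := by
  unfold tau; simp

/-- The partial sums of the coarse sequence. -/
theorem S_Z (K : ℕ) (hK : 1 ≤ K) (p : (ℕ → ℝ) × (ℕ → ℕ)) (i : ℕ) :
    Real.sqrt K * S (fun i => Z K p i) i = S p.1 (tau p.2 i) := by
  have hs : 0 < Real.sqrt K := Real.sqrt_pos.mpr (by exact_mod_cast hK)
  induction i with
  | zero => rw [S_zero, tau_zero, S_zero]; ring
  | succ m ih =>
    have h : S (fun i => Z K p i) (m + 1) = S (fun i => Z K p i) m + Z K p (m + 1) := by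
      unfold S
      rw [Finset.sum_Icc_succ_top (by omega)]
    rw [h, mul_add, ih]
    unfold Z
    rw [if_neg (by omega), Nat.add_sub_cancel]
    field_simp
    ring

theorem gp_coarse (h1 : S_Zmp) (h2 : S_cdet) (h3 : S_Stail) (h4 : S_tautail) : S_coarse := by
  intro K n x0 A δ hK hn hx0 hA hδ hl hbig
  set l : ℝ := 2 * (A + 1) * Real.log n with hldef
  have hZ := h1 K hK
  have hK' : (1 : ℝ) ≤ K := by exact_mod_cast hK
  have hKs : 0 < Real.sqrt K := Real.sqrt_pos.mpr (by linarith)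
  have hKs2 : Real.sqrt K * Real.sqrt K = K := Real.mul_self_sqrt (by linarith)
  set E : Set (ℕ → ℝ) := {ω | ∀ x ∈ Finset.Icc x0 n, δ * Real.sqrt x ≤ Ch ω n x} with hE
  set F : Set (ℕ → ℝ) := {ω | ∀ y ∈ Finset.Icc (K * x0) (K * n), 0 ≤ Ch ω (K * n) y} with hF
  let w : ℕ → ℕ := fun i => ⌈(K : ℝ) * Real.sqrt i * l⌉₊
  let a : ℕ → ℕ := fun i => K * i - w i
  let N : ℕ → ℕ := fun i => 2 * w i
  let t : ℕ → ℝ := fun i => Real.sqrt K * (8 * l ^ (3 / 2 : ℝ) * (i : ℝ) ^ (1 / 4 : ℝ)) / 2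
  let Ba : ℕ → Set (ℕ → ℕ) := fun i => {g | K * Real.sqrt i * l ≤ |(tau g i : ℝ) - K * i|}
  let Bb : ℕ → Set (ℕ → ℝ) := fun i => {ω | ∃ j ∈ Finset.Icc (a i) (a i + N i), t i ≤ |S ω j - S ω (a i)|}
  let Bc : ℕ → Set (ℕ → ℝ) := fun i => {ω | l * Real.sqrt i ≤ |S ω i|}
  have hEm : MeasurableSet E := by
    have : E = ⋂ x ∈ Finset.Icc x0 n, {ω | δ * Real.sqrt x ≤ Ch ω n x} := by
      ext ω; simp [hE]
    rw [this]
    exact Finset.measurableSet_biInter _ (fun x _ => measurableSet_le measurable_const (meas_Ch n x))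
  have hBcm : ∀ i, MeasurableSet (Bc i) := fun i =>
    measurableSet_le measurable_const (continuous_abs.measurable.comp (meas_S i))
  -- the inclusion
  have hsub : (fun p : (ℕ → ℝ) × (ℕ → ℕ) => (fun i => Z K p i)) ⁻¹' E ⊆
      (F ×ˢ (Set.univ : Set (ℕ → ℕ))) ∪ ⋃ i ∈ Finset.Icc 1 n,
        (((Set.univ : Set (ℕ → ℝ)) ×ˢ Ba i) ∪ (Bb i ×ˢ (Set.univ : Set (ℕ → ℕ))) ∪
          ((fun p : (ℕ → ℝ) × (ℕ → ℕ) => (fun i => Z K p i)) ⁻¹' Bc i)) := by
    intro p hp
    by_contra hcon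
    simp only [Set.mem_union, Set.mem_prod, Set.mem_univ, and_true, true_and, Set.mem_iUnion,
      not_or, not_exists, Set.mem_preimage, exists_prop, not_and] at hcon
    obtain ⟨hcF, hc⟩ := hcon
    apply hcF
    refine h2 K n x0 p.1 (fun i => Z K p i) l δ hK (by omega) hx0 hl hδ hbig ?_ ?_ hp
    · intro i hi j hj1 hj2 _
      have hi1 : 1 ≤ i := le_trans hx0 (Finset.mem_Icc.mp hi).1
      have hi2 : i ∈ Finset.Icc 1 n := Finset.mem_Icc.mpr ⟨hi1, (Finset.mem_Icc.mp hi).2⟩
      obtain ⟨⟨hA1, hB1⟩, _⟩ := hc i hi2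
      have hA2 : |(tau p.2 i : ℝ) - K * i| < K * Real.sqrt i * l := not_le.mp hA1
      have hB2 : ∀ j ∈ Finset.Icc (a i) (a i + N i), |S p.1 j - S p.1 (a i)| < t i := by
        intro j hj
        by_contra hcc
        exact hB1 ⟨j, hj, not_lt.mp hcc⟩
      have hsi : (1 : ℝ) ≤ Real.sqrt i := by
        rw [Real.one_le_sqrt]; exact_mod_cast hi1
      have hw : (K : ℝ) * Real.sqrt i * l ≤ w i := Nat.le_ceil _
      have hwK : K ≤ w i := by
        have : (K : ℝ) ≤ w i := by
          refine le_trans ?_ hw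
          have h5 : (K : ℝ) * 1 ≤ K * Real.sqrt i := by gcongr
          have h6 : (K : ℝ) * Real.sqrt i * 1 ≤ K * Real.sqrt i * l := by gcongr
          linarith
        exact_mod_cast this
      rw [abs_lt] at hA2
      have ht1 : tau p.2 i ∈ Finset.Icc (a i) (a i + N i) := by
        rw [Finset.mem_Icc]
        have e1 : ((K * i : ℕ) : ℝ) < ((tau p.2 i + w i : ℕ) : ℝ) := by push_cast; linarith
        have e2 : ((tau p.2 i : ℕ) : ℝ) < ((K * i + w i : ℕ) : ℝ) := by push_cast; linarith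
        have e1' : K * i < tau p.2 i + w i := by exact_mod_cast e1
        have e2' : tau p.2 i < K * i + w i := by exact_mod_cast e2
        simp only [a, N]
        omega
      have hj3 : j ∈ Finset.Icc (a i) (a i + N i) := by
        rw [Finset.mem_Icc]
        have : K * (i + 1) = K * i + K := by ring
        simp only [a, N]
        omega
      rw [S_Z K hK]
      have b1 := hB2 _ ht1
      have b2 := hB2 _ hj3
      have : t i + t i = Real.sqrt K * (8 * l ^ (3 / 2 : ℝ) * (i : ℝ) ^ (1 / 4 : ℝ)) := by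
        simp only [t]; ring
      rw [← this]
      rw [abs_lt] at b1 b2
      rw [abs_le]
      constructor <;> linarith
    · intro i hi
      have hi1 : 1 ≤ i := le_trans hx0 (Finset.mem_Icc.mp hi).1
      have hi2 : i ∈ Finset.Icc 1 n := Finset.mem_Icc.mpr ⟨hi1, (Finset.mem_Icc.mp hi).2⟩
      obtain ⟨_, hC⟩ := hc i hi2
      exact le_of_lt (not_le.mp hC)
  -- the probabilities
  have hl0 : 0 ≤ l := by linarith
  have pa : ∀ i ∈ Finset.Icc 1 n, (PP.prod (GG K)).real ((Set.univ : Set (ℕ → ℝ)) ×ˢ Ba i) ≤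
      2 * Real.exp (1 / 4) * Real.exp (-(l / 2)) := by
    intro i hi
    have : (PP.prod (GG K)).real ((Set.univ : Set (ℕ → ℝ)) ×ˢ Ba i) = (GG K).real (Ba i) := by
      rw [measureReal_def, Measure.prod_prod, measure_univ, one_mul, measureReal_def]
    rw [this]
    exact h4 K i l hK (Finset.mem_Icc.mp hi).1 hl0
  have pb : ∀ i ∈ Finset.Icc 1 n, (PP.prod (GG K)).real (Bb i ×ˢ (Set.univ : Set (ℕ → ℕ))) ≤
      4 * Real.exp (1 / 2) * Real.exp (-(l / 2)) := by
    intro i hi
    have : (PP.prod (GG K)).real (Bb i ×ˢ (Set.univ : Set (ℕ → ℕ))) = PP.real (Bb i) := by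
      rw [measureReal_def, Measure.prod_prod, measure_univ, mul_one, measureReal_def]
    rw [this]
    have hi1 : 1 ≤ i := (Finset.mem_Icc.mp hi).1
    have hi1' : (1 : ℝ) ≤ i := by exact_mod_cast hi1
    have hsi : (1 : ℝ) ≤ Real.sqrt i := by
      rw [Real.one_le_sqrt]; exact_mod_cast hi1
    have h5 : (1 : ℝ) ≤ K * Real.sqrt i * l := by
      have := one_le_mul_of_one_le_of_one_le (one_le_mul_of_one_le_of_one_le hK' hsi) hl
      exact this
    have hw0 : (w i : ℝ) < K * Real.sqrt i * l + 1 := Nat.ceil_lt_add_one (by linarith)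
    have hw1 : 1 ≤ w i := by
      have : (1 : ℝ) ≤ w i := le_trans h5 (Nat.le_ceil _)
      exact_mod_cast this
    have hN1 : 1 ≤ N i := by simp only [N]; omega
    have hN2 : (N i : ℝ) ≤ 4 * (K * Real.sqrt i * l) := by
      simp only [N]; push_cast; linarith
    have ht0 : 0 ≤ t i := by simp only [t]; positivity
    refine le_trans (h3 (a i) (N i) (t i) hN1 ht0) ?_
    have hq : 0 < Real.sqrt (N i) := Real.sqrt_pos.mpr (by exact_mod_cast hN1)
    -- the main estimate
    set r : ℝ := (i : ℝ) ^ (1 / 4 : ℝ) with hr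
    have hr0 : 0 ≤ r := by positivity
    have hr2 : r * r = Real.sqrt i := by
      rw [hr, ← Real.rpow_add (by linarith), Real.sqrt_eq_rpow]; norm_num
    have hl32 : l ^ (3 / 2 : ℝ) = l * Real.sqrt l := by
      rw [Real.sqrt_eq_rpow, ← Real.rpow_one_add' hl0 (by norm_num)]; norm_num
    have hsl : Real.sqrt l * Real.sqrt l = l := Real.mul_self_sqrt hl0
    have hsN : Real.sqrt (N i) ≤ 2 * Real.sqrt K * r * Real.sqrt l := by
      rw [Real.sqrt_le_left (by positivity)]
      refine le_trans hN2 (le_of_eq ?_)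
      rw [← hr2]
      have : (2 * Real.sqrt K * r * Real.sqrt l) ^ 2 = 4 * ((Real.sqrt K * Real.sqrt K) * (r * r) * (Real.sqrt l * Real.sqrt l)) := by ring
      rw [this, hKs2, hsl]
    have hmain : l ≤ t i / (2 * Real.sqrt (N i)) := by
      rw [le_div_iff₀ (by positivity)]
      have h7 : t i = 4 * l * (Real.sqrt K * r * Real.sqrt l) := by
        simp only [t]; rw [hl32]; ring
      rw [h7]
      have := mul_le_mul_of_nonneg_left hsN hl0
      nlinarith
    have : Real.exp (-(t i / (2 * Real.sqrt (N i)))) ≤ Real.exp (-(l / 2)) := by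
      apply Real.exp_le_exp.mpr
      linarith
    gcongr
  have pc : ∀ i ∈ Finset.Icc 1 n, (PP.prod (GG K)).real
      ((fun p : (ℕ → ℝ) × (ℕ → ℕ) => (fun i => Z K p i)) ⁻¹' Bc i) ≤
      4 * Real.exp (1 / 2) * Real.exp (-(l / 2)) := by
    intro i hi
    have : (PP.prod (GG K)).real
      ((fun p : (ℕ → ℝ) × (ℕ → ℕ) => (fun i => Z K p i)) ⁻¹' Bc i) = PP.real (Bc i) := by
      rw [measureReal_def, hZ.measure_preimage (hBcm i).nullMeasurableSet, measureReal_def]
    rw [this]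
    have hi1 : 1 ≤ i := (Finset.mem_Icc.mp hi).1
    have hsi : (1 : ℝ) ≤ Real.sqrt i := by
      rw [Real.one_le_sqrt]; exact_mod_cast hi1
    have h5 := h3 0 i (l * Real.sqrt i) hi1 (by positivity)
    have h6 : l * Real.sqrt i / (2 * Real.sqrt i) = l / 2 := by
      field_simp
    rw [h6] at h5
    refine le_trans (measureReal_mono ?_) h5
    intro ω hω
    refine ⟨i, by simp, ?_⟩
    rw [S_zero, sub_zero]
    exact hω
  -- assembly
  have hEZ : PP.real E = (PP.prod (GG K)).real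
      ((fun p : (ℕ → ℝ) × (ℕ → ℕ) => (fun i => Z K p i)) ⁻¹' E) := by
    rw [measureReal_def, measureReal_def, hZ.measure_preimage hEm.nullMeasurableSet]
  have hFF : (PP.prod (GG K)).real (F ×ˢ (Set.univ : Set (ℕ → ℕ))) = PP.real F := by
    rw [measureReal_def, Measure.prod_prod, measure_univ, mul_one, measureReal_def]
  rw [hEZ]
  refine le_trans (measureReal_mono hsub) ?_
  refine le_trans (measureReal_union_le _ _) ?_
  rw [hFF]
  gcongr
  refine le_trans (measureReal_biUnion_finset_le _ _) ?_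
  have hterm : ∀ i ∈ Finset.Icc 1 n, (PP.prod (GG K)).real
      (((Set.univ : Set (ℕ → ℝ)) ×ˢ Ba i) ∪ (Bb i ×ˢ (Set.univ : Set (ℕ → ℕ))) ∪
          ((fun p : (ℕ → ℝ) × (ℕ → ℕ) => (fun i => Z K p i)) ⁻¹' Bc i)) ≤ 40 * Real.exp (-(l / 2)) := by
    intro i hi
    refine le_trans (measureReal_union_le _ _) ?_
    refine le_trans (add_le_add (measureReal_union_le _ _) (pc i hi)) ?_
    refine le_trans (add_le_add (add_le_add (pa i hi) (pb i hi)) le_rfl) ?_
    have e4 : Real.exp (1 / 4) ≤ 3 := by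
      have : Real.exp (1 / 4) ≤ Real.exp 1 := Real.exp_le_exp.mpr (by norm_num)
      have := Real.exp_one_lt_d9
      linarith
    have e2 : Real.exp (1 / 2) ≤ 3 := by
      have : Real.exp (1 / 2) ≤ Real.exp 1 := Real.exp_le_exp.mpr (by norm_num)
      have := Real.exp_one_lt_d9
      linarith
    have := Real.exp_pos (-(l / 2))
    nlinarith
  refine le_trans (Finset.sum_le_sum hterm) ?_
  rw [Finset.sum_const, Nat.card_Icc, Nat.add_sub_cancel, nsmul_eq_mul]
  have hn0 : (0 : ℝ) < n := by exact_mod_cast (by omega : 0 < n)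
  have hexp : Real.exp (-(l / 2)) = (n : ℝ) ^ (-(A + 1)) := by
    rw [Real.rpow_def_of_pos hn0]
    congr 1
    rw [hldef]; ring
  rw [hexp]
  have : (n : ℝ) ^ (-A) = n * (n : ℝ) ^ (-(A + 1)) := by
    nth_rewrite 2 [← Real.rpow_one (n : ℝ)]
    rw [← Real.rpow_add hn0]
    congr 1; ring
  rw [this]
  apply le_of_eq
  ring

end Pool.Agent.H86.GP174
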